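import Pool.Agent.Q99.HT.Stm4

/-!
# Project HT: job NW (helper251): the state sum of a network as an integral
-/

set_option autoImplicit false

namespace Pool.Agent.Q251.HT

open Finset Filter Topology MeasureTheory
open Pool.Agent.Q99.HT
open Pool.Agent.Q99.KN (Fk)

/-- finitely many positive numbers have a positive lower bound -/
lemma pos_min {c : ℕ} (f : Fin c → ℝ) (hf : ∀ s, 0 < f s) : ∃ m : ℝ, 0 < m ∧ ∀ s, m ≤ f s := by
  rcases isEmpty_or_nonempty (Fin c) with h | h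
  · exact ⟨1, one_pos, fun s => (h.false s).elim⟩
  · obtain ⟨s0, -, h0⟩ := Finset.exists_min_image Finset.univ f Finset.univ_nonempty
    exact ⟨f s0, hf s0, fun s => h0 s (Finset.mem_univ s)⟩

lemma eX_eq (N : ℕ) (hN : 0 < N) (α : Fin 6 → ℝ) (A b C : ℕ) (x : Fin 3 → ℝ)
    (h0 : x 0 = A / N) (h1 : x 1 = b / N) (h2 : x 2 = C / N) :
    eX N α A b C = N * (v0 α + mR α x) := by
  have hN' : (N : ℝ) ≠ 0 := by positivity
  have e0 : qc α 0 = α 0 := rfl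
  have e1 : qc α 1 = α 1 + α 4 := rfl
  have e2 : qc α 2 = α 3 := rfl
  simp only [eX, mR, Fin.sum_univ_three, e0, e1, e2, h0, h1, h2]
  field_simp
  ring

lemma cmp_of {α : Fin 6 → ℝ} (hf : Fr α) (q : Fin 3 → ℤ) (hq : ∀ i, qc α i = 0 → q i = 0) :
    Cmp α (q 0).toNat (q 1).toNat (q 2).toNat := by
  refine ⟨fun h => ?_, fun h => ?_, fun h => ?_⟩
  · rw [hq 0 h]; rfl
  · have h4 : α 4 = 0 := hf.z14.1 h
    have : qc α 1 = 0 := by
      change α 1 + α 4 = 0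
      rw [h, h4, add_zero]
    rw [hq 1 this]; rfl
  · rw [hq 2 h]; rfl

/-- the near points are possible corners -/
lemma ps_of {α : Fin 6 → ℝ} {r κ K C0 : ℝ} (hf : Fr α) (hb : Blk α r κ K C0) (N : ℕ) (hN : 0 < N)
    (q : Fin 3 → ℤ) (hq : ∀ i, qc α i = 0 → q i = 0)
    (hn : ∀ i, |(q i : ℝ) / N - qc α i| ≤ r / 4) : Ps N q := by
  have hN' : (0 : ℝ) < N := by exact_mod_cast hN
  have hr := hb.r0
  have hr1 := hb.r1
  have key : ∀ i, qc α i = 0 ∨ r ≤ qc α i → 0 ≤ q i := by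
    intro i hi
    rcases hi with hi | hi
    · rw [hq i hi]
    · have h1 := (abs_le.1 (hn i)).1
      have h2 : 0 < (q i : ℝ) / N := by linarith
      have h3 : 0 < (q i : ℝ) := by
        by_contra hc
        exact absurd h2 (not_lt.2 (div_nonpos_of_nonpos_of_nonneg (not_lt.1 hc) hN'.le))
      exact_mod_cast h3.le
  have c2 : 32 * r ≤ α 2 := by
    by_cases h : ctr α 2 = 0
    · have : (1 / 2 : ℝ) - α 2 = 0 := h
      linarith
    · have h1 : 32 * r ≤ 1 / 2 - (1 / 2 - α 2) := (hb.sml 2 h).2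
      linarith
  have c5 : 32 * r ≤ α 5 := by
    by_cases h : ctr α 5 = 0
    · have : (1 / 2 : ℝ) - α 5 = 0 := h
      linarith
    · have h1 : 32 * r ≤ 1 / 2 - (1 / 2 - α 5) := (hb.sml 5 h).2
      linarith
  refine ⟨key 0 ?_, key 1 ?_, key 2 ?_, ?_⟩
  · by_cases h : α 0 = 0
    · exact Or.inl h
    · right
      have h1 : 32 * r ≤ α 0 := (hb.sml 0 h).1
      change r ≤ α 0
      linarith
  · by_cases h : α 1 = 0
    · left
      change α 1 + α 4 = 0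
      rw [h, hf.z14.1 h, add_zero]
    · right
      have h1 : 32 * r ≤ α 1 := (hb.sml 1 h).1
      have h2 := hf.nn 4
      change r ≤ α 1 + α 4
      linarith
  · by_cases h : α 3 = 0
    · exact Or.inl h
    · right
      have h1 : 32 * r ≤ α 3 := (hb.sml 3 h).1
      change r ≤ α 3
      linarith
  · have h0 := (abs_le.1 (hn 0)).2
    have h1 := (abs_le.1 (hn 1)).2
    have h2 := (abs_le.1 (hn 2)).2
    have e0 : qc α 0 = α 0 := rfl
    have e1 : qc α 1 = α 1 + α 4 := rfl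
    have e2 : qc α 2 = α 3 := rfl
    rw [e0] at h0
    rw [e1] at h1
    rw [e2] at h2
    have s1 := hf.s1
    have s2 := hf.s2
    have h3 : ((q 0 : ℝ) + q 1 + q 2) / N < 1 := by
      rw [add_div, add_div]
      linarith
    rw [div_lt_one hN'] at h3
    exact_mod_cast h3

/-- the case of good constants -/
lemma main (hNW0 : S_NW0) (hG : S_GPX) (hM : S_MPX) (hB : BNc) {c d : ℕ} (X : Nw c d) (hX : X.Ok)
    (r κ K C0 : ℝ) (h : ∀ s, Blk (X.α s) r κ K C0 ∧ Lat (X.α s) κ C0) (hr : 0 < r)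
    (hr1 : r ≤ 1 / 64) (hκ : 0 < κ) (hκK : κ ≤ K) :
    ∃ δ0 : ℝ, 0 < δ0 ∧ ∀ δ : ℝ, 0 < δ → δ ≤ δ0 → ∃ τ1 c2 : ℝ, 0 < τ1 ∧ 0 < c2 ∧
    ∀ (w : Fin c → ℤ) (y ηJ : Fin c → ℝ) (η : Fin d → ℝ) (e : ℝ), 0 ≤ e →
    (∀ s, 0 < y s ∧ y s ≤ τ1 ∧ |(w s : ℝ)| * y s ≤ τ1 ∧ |ηJ s| ≤ τ1 ∧
        K * ηJ s ^ 2 + (Real.pi * w s * y s) ^ 2 / (16 * κ) + K * y s ^ 2 ≤ e) → (∀ j, |η j| ≤ τ1) →
    ∃ C : ℝ, ∃ p N0 : ℕ, ∀ N : ℕ, N0 ≤ N →
    ‖X.Z N w - N ^ d * ∫ x in X.bx δ N, ∏ s, FZ r N (X.α s) (w s) (y s) (ηJ s)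
        (X.xN N (fun j => x j + η j * Complex.I) s)‖ ≤
      C * N ^ p * Real.exp (N * (∑ s, v0 (X.α s) + c * e - c2)) := by
  have hBs := fun s => hB (X.α s) r κ K C0 (hX.fr s) (hX.ac s) (h s).1 (h s).2
  choose τs cs hτs hcs hBs using hBs
  obtain ⟨τ0, hτ0, hτ⟩ := pos_min τs hτs
  obtain ⟨c1, hc1, hc⟩ := pos_min cs hcs
  obtain ⟨δ0, hδ0, hD⟩ := hNW0 hG hM c d X hX r κ K c1 hr hr1 (fun s => (h s).1.sml) hκ hκK hc1
  refine ⟨δ0, hδ0, fun δ hδ hδ1 => ?_⟩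
  obtain ⟨τ1, c2, C', hτ1, hc2, p', N0', hN⟩ := hD δ hδ hδ1
  refine ⟨min τ1 τ0, c2, lt_min hτ1 hτ0, hc2, fun w y ηJ η e he hs hη => ?_⟩
  have hBw := fun s => hBs s (w s) (y s) (ηJ s) (hs s).1
    ((hs s).2.1.trans ((min_le_right _ _).trans (hτ s)))
    ((hs s).2.2.1.trans ((min_le_right _ _).trans (hτ s)))
    ((hs s).2.2.2.1.trans ((min_le_right _ _).trans (hτ s)))
  choose Cs ps Ns hBw using hBw
  set Cm : ℝ := 1 + ∑ s, |Cs s| with hCm
  set pm : ℕ := ∑ s, ps s with hpm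
  refine ⟨C' * Cm ^ c, p' + pm * c, N0' + ∑ s, Ns s + 1, fun N hNN => ?_⟩
  have hN1 : 1 ≤ N := by omega
  have hN1' : (1 : ℝ) ≤ N := by exact_mod_cast hN1
  have hNs : ∀ s, Ns s ≤ N := by
    intro s
    have : Ns s ≤ ∑ s, Ns s := Finset.single_le_sum (fun _ _ => Nat.zero_le _) (Finset.mem_univ s)
    omega
  have hCm1 : 1 ≤ Cm := by
    rw [hCm]
    have : 0 ≤ ∑ s, |Cs s| := Finset.sum_nonneg fun _ _ => abs_nonneg _
    linarith
  have hM1 : 1 ≤ Cm * (N : ℝ) ^ pm := one_le_mul_of_one_le_of_one_le hCm1 (one_le_pow₀ hN1')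
  have hMs : ∀ s, Cs s * (N : ℝ) ^ ps s ≤ Cm * (N : ℝ) ^ pm := by
    intro s
    have h1 : Cs s ≤ Cm := by
      have h2 : |Cs s| ≤ ∑ s, |Cs s| :=
        Finset.single_le_sum (f := fun s => |Cs s|) (fun _ _ => abs_nonneg _) (Finset.mem_univ s)
      have h3 := le_abs_self (Cs s)
      linarith
    have h2 : (N : ℝ) ^ ps s ≤ (N : ℝ) ^ pm :=
      pow_le_pow_right₀ hN1' (Finset.single_le_sum (fun _ _ => Nat.zero_le _) (Finset.mem_univ s))
    exact mul_le_mul h1 h2 (by positivity) (by linarith)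
  have hfin := hN N (by omega) (fun s => Fq N (w s)) (fun s => FZ r N (X.α s) (w s) (y s) (ηJ s))
    (Cm * (N : ℝ) ^ pm) e hM1 he ?_ ?_ ?_ ?_ ?_ η (fun j => (hη j).trans (min_le_left _ _))
  · have e1 : C' * (N : ℝ) ^ p' * (Cm * (N : ℝ) ^ pm) ^ c =
        C' * Cm ^ c * (N : ℝ) ^ (p' + pm * c) := by
      rw [mul_pow, pow_add, pow_mul]
      ring
    rw [e1] at hfin
    exact hfin
  · intro s q hq
    exact if_neg hq
  · intro s q hP hq
    have h4 := (hBw s N (hNs s)).2.2.2 (q 0).toNat (q 1).toNat (q 2).toNat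
      (by have := hP.2.2.2; have := hP.1; have := hP.2.1; have := hP.2.2.1; omega)
      (cmp_of (hX.fr s) q hq)
    have t0 : (((q 0).toNat : ℕ) : ℝ) = (q 0 : ℝ) := by
      exact_mod_cast congrArg (fun z : ℤ => (z : ℝ)) (Int.toNat_of_nonneg hP.1)
    have t1 : (((q 1).toNat : ℕ) : ℝ) = (q 1 : ℝ) := by
      exact_mod_cast congrArg (fun z : ℤ => (z : ℝ)) (Int.toNat_of_nonneg hP.2.1)
    have t2 : (((q 2).toNat : ℕ) : ℝ) = (q 2 : ℝ) := by
      exact_mod_cast congrArg (fun z : ℤ => (z : ℝ)) (Int.toNat_of_nonneg hP.2.2.1)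
    rw [eX_eq N hN1 (X.α s) _ _ _ (fun i => (q i : ℝ) / N) (by rw [t0]) (by rw [t1]) (by rw [t2])]
      at h4
    have ev : (![(((q 0).toNat : ℕ) : ℝ) / N, (((q 1).toNat : ℕ) : ℝ) / N,
        (((q 2).toNat : ℕ) : ℝ) / N] : Fin 3 → ℝ) = fun i => (q i : ℝ) / N := by
      rw [t0, t1, t2]
      funext i
      fin_cases i <;> rfl
    rw [ev] at h4
    have e2 : (N : ℝ) * (v0 (X.α s) + mR (X.α s) fun i => (q i : ℝ) / N) -
        κ * N * sR (X.α s) (fun i => (q i : ℝ) / N) = N * (v0 (X.α s) +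
        mR (X.α s) (fun i => (q i : ℝ) / N) - κ * sR (X.α s) (fun i => (q i : ℝ) / N)) := by ring
    rw [e2] at h4
    have ef : Fq N (w s) q = Fk N (w s) (q 0).toNat (q 1).toNat (q 2).toNat := if_pos hP
    change ‖Fq N (w s) q‖ ≤ _
    rw [ef]
    exact h4.trans (mul_le_mul_of_nonneg_right (hMs s) (Real.exp_pos _).le)
  · intro s
    exact (hBw s N (hNs s)).1
  · intro s ξ hξ hA
    refine ((hBw s N (hNs s)).2.1 ξ hξ hA).trans ?_
    refine mul_le_mul (hMs s) (Real.exp_le_exp.2 ?_) (Real.exp_pos _).le (by linarith)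
    apply mul_le_mul_of_nonneg_left _ (by linarith)
    have := (hs s).2.2.2.2
    linarith
  · intro s q hq hn
    have hP : Ps N q := ps_of (hX.fr s) (h s).1 N hN1 q hq hn
    have t0 : (((q 0).toNat : ℕ) : ℝ) = (q 0 : ℝ) := by
      exact_mod_cast congrArg (fun z : ℤ => (z : ℝ)) (Int.toNat_of_nonneg hP.1)
    have t1 : (((q 1).toNat : ℕ) : ℝ) = (q 1 : ℝ) := by
      exact_mod_cast congrArg (fun z : ℤ => (z : ℝ)) (Int.toNat_of_nonneg hP.2.1)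
    have t2 : (((q 2).toNat : ℕ) : ℝ) = (q 2 : ℝ) := by
      exact_mod_cast congrArg (fun z : ℤ => (z : ℝ)) (Int.toNat_of_nonneg hP.2.2.1)
    have u0 : (((q 0).toNat : ℕ) : ℂ) = (q 0 : ℂ) := by
      exact_mod_cast congrArg (fun z : ℤ => (z : ℂ)) (Int.toNat_of_nonneg hP.1)
    have u1 : (((q 1).toNat : ℕ) : ℂ) = (q 1 : ℂ) := by
      exact_mod_cast congrArg (fun z : ℤ => (z : ℂ)) (Int.toNat_of_nonneg hP.2.1)
    have u2 : (((q 2).toNat : ℕ) : ℂ) = (q 2 : ℂ) := by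
      exact_mod_cast congrArg (fun z : ℤ => (z : ℂ)) (Int.toNat_of_nonneg hP.2.2.1)
    have h3 := (hBw s N (hNs s)).2.2.1 (q 0).toNat (q 1).toNat (q 2).toNat
      (cmp_of (hX.fr s) q hq) (by rw [t0]; exact hn 0) (by rw [t1]; exact hn 1)
      (by rw [t2]; exact hn 2)
    rw [eX_eq N hN1 (X.α s) _ _ _ (fun i => (q i : ℝ) / N) (by rw [t0]) (by rw [t1]) (by rw [t2])]
      at h3
    have ev : (![(((q 0).toNat : ℕ) : ℂ) / N, (((q 1).toNat : ℕ) : ℂ) / N,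
        (((q 2).toNat : ℕ) : ℂ) / N] : Fin 3 → ℂ) = fun i => (q i : ℂ) / N := by
      rw [u0, u1, u2]
      funext i
      fin_cases i <;> rfl
    rw [ev] at h3
    have ef : Fq N (w s) q = Fk N (w s) (q 0).toNat (q 1).toNat (q 2).toNat := if_pos hP
    change ‖Fq N (w s) q - _‖ ≤ _
    rw [ef]
    refine h3.trans ?_
    refine mul_le_mul (hMs s) (Real.exp_le_exp.2 ?_) (Real.exp_pos _).le (by linarith)
    have h5 := mul_le_mul_of_nonneg_right (hc s) (by linarith : (0 : ℝ) ≤ N)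
    have e3 : (N : ℝ) * (v0 (X.α s) + mR (X.α s) (fun i => (q i : ℝ) / N) - c1) =
      N * (v0 (X.α s) + mR (X.α s) (fun i => (q i : ℝ) / N)) - c1 * N := by ring
    rw [e3]
    linarith

theorem task_NW : S_NW := by
  intro hNW0 hG hM hB c d X hX r κ K C0 h
  rcases isEmpty_or_nonempty (Fin c) with he | ⟨⟨s0⟩⟩
  · obtain ⟨δ0, hδ0, hD⟩ := main hNW0 hG hM hB X hX (1 / 64) 1 1 1 (fun s => (he.false s).elim)
      (by norm_num) le_rfl one_pos le_rfl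
    refine ⟨δ0, hδ0, fun δ hδ hδ1 => ?_⟩
    obtain ⟨τ1, c2, hτ1, hc2, hh⟩ := hD δ hδ hδ1
    refine ⟨τ1, c2, hτ1, hc2, fun w y ηJ η e he0 hs hη => ?_⟩
    obtain ⟨C, p, N0, hN⟩ := hh w y ηJ η e he0 (fun s => (he.false s).elim) hη
    refine ⟨C, p, N0, fun N hNN => ?_⟩
    have := hN N hNN
    simp only [Finset.univ_eq_empty, Finset.prod_empty] at this ⊢
    exact this
  · have hb := (h s0).1
    exact main hNW0 hG hM hB X hX r κ K C0 h hb.r0 hb.r1 hb.κ0 hb.κK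

end Pool.Agent.Q251.HT
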