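import Pool.Agent.Q99.HT.Stm2

/-!
# Highly twisted links (project HT of helper99): job BRK, the constants of a bracket exist (helper251)
-/

set_option autoImplicit false

namespace Pool.Agent.Q251.HT

open Finset Filter Topology MeasureTheory
open Pool.Agent.Q99.FAL (hh)
open Pool.Agent.Q99.KN (LC bb Gm St ct S_LC S_GAM bc)
open Pool.Agent.Q99.HT

theorem task_BRK : S_BRK := by
  intro hLC hGAM hLTd hTBI hTBA hLTH x hx0 hx1
  obtain ⟨ρ, κ, K, hρ, hρ1, hρ2, hκ, hκK, hb, hh2⟩ := hLTH hLC hLTd x hx0 hx1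
  obtain ⟨C, hC⟩ := hTBA hLC hGAM x hx0 hx1 ρ hρ hρ1 hρ2
  -- lower bound of `exp (bb ξ / 2)`
  have hSt : Metric.closedBall (x : ℂ) ρ ⊆ St := by
    intro ξ hξ
    rw [Metric.mem_closedBall, dist_eq_norm] at hξ
    have h1 := Complex.abs_re_le_norm (ξ - x)
    rw [Complex.sub_re, Complex.ofReal_re] at h1
    have h2 := abs_le.1 (h1.trans hξ)
    constructor <;> linarith
  have hcont : ContinuousOn (fun ξ : ℂ => (bb ξ).re) (Metric.closedBall (x : ℂ) ρ) := by
    intro ξ hξ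
    exact (Complex.continuous_re.continuousAt.comp
      (hLC.2.2.2.1 ξ (hSt hξ)).continuousAt).continuousWithinAt
  obtain ⟨m, hm⟩ := (isCompact_closedBall (x : ℂ) ρ).bddBelow_image hcont
  have hm' : ∀ ξ : ℂ, ‖ξ - x‖ < ρ → m ≤ (bb ξ).re := by
    intro ξ hξ
    refine hm ⟨ξ, ?_, rfl⟩
    rw [Metric.mem_closedBall, dist_eq_norm]
    exact hξ.le
  obtain ⟨C0, hC0⟩ : ∃ C0 : ℝ, C0 = max 1 (max C ((1 + |C|) * Real.exp (-(m / 2)))) := ⟨_, rfl⟩
  have c1 : 1 ≤ C0 := by rw [hC0]; exact le_max_left _ _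
  have c2 : C ≤ C0 := by rw [hC0]; exact (le_max_left _ _).trans (le_max_right _ _)
  have c3 : (1 + |C|) * Real.exp (-(m / 2)) ≤ C0 := by
    rw [hC0]; exact (le_max_right _ _).trans (le_max_right _ _)
  refine ⟨ρ, κ, K, C0, ⟨hρ, hρ1, hρ2, hκ, hκK, c1, fun N hN => (hC N hN).1, ?_, ?_, ?_, hh2⟩⟩
  · intro N k hN ζ hk hζ
    refine hTBI hLC hGAM N k hN ζ ?_
    have h1 := Complex.abs_re_le_norm ζ
    have h2 := (abs_lt.1 hk).2
    linarith
  · intro N hN ν ξ hν hξ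
    have hN1 : (1 : ℝ) ≤ N := by exact_mod_cast hN
    have h1 := (hC N hN).2 ν ξ hν hξ
    have h2 : C / N ≤ |C| := by
      refine (le_abs_self _).trans ?_
      rw [abs_div, abs_of_pos (by linarith : (0 : ℝ) < N)]
      exact div_le_self (abs_nonneg _) hN1
    have h3 : ‖TB N ν ξ * ((√N : ℝ) * Complex.exp (bb ξ / 2)) *
        Complex.exp (-(N * LT ν ξ))‖ ≤ 1 + |C| := by
      have h4 := norm_add_le (TB N ν ξ * ((√N : ℝ) * Complex.exp (bb ξ / 2)) *
        Complex.exp (-(N * LT ν ξ)) - 1) 1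
      rw [sub_add_cancel, norm_one] at h4
      linarith
    rw [norm_mul, norm_mul, norm_mul, Complex.norm_real, Complex.norm_exp, Complex.norm_exp,
      Real.norm_of_nonneg (Real.sqrt_nonneg _)] at h3
    have e1 : (bb ξ / 2).re = (bb ξ).re / 2 := by
      rw [show bb ξ / 2 = bb ξ / ((2 : ℝ) : ℂ) by push_cast; rfl, Complex.div_ofReal_re]
    have e2 : (-((N : ℂ) * LT ν ξ)).re = -(N * (LT ν ξ).re) := by
      rw [Complex.neg_re, show ((N : ℂ) * LT ν ξ) = ((N : ℝ) : ℂ) * LT ν ξ by push_cast; rfl,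
        Complex.re_ofReal_mul]
    rw [e1, e2] at h3
    have h5 : Real.exp (m / 2) ≤ √(N : ℝ) * Real.exp ((bb ξ).re / 2) := by
      have h6 : (1 : ℝ) ≤ √(N : ℝ) := by
        rw [← Real.sqrt_one]
        exact Real.sqrt_le_sqrt hN1
      have h7 : Real.exp (m / 2) ≤ Real.exp ((bb ξ).re / 2) :=
        Real.exp_le_exp.2 (by linarith [hm' ξ hξ])
      have h8 := Real.exp_pos (m / 2)
      nlinarith [Real.exp_pos ((bb ξ).re / 2)]
    have h6 : ‖TB N ν ξ‖ * Real.exp (m / 2) * Real.exp (-(N * (LT ν ξ).re)) ≤ 1 + |C| := by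
      refine le_trans ?_ h3
      exact mul_le_mul_of_nonneg_right (mul_le_mul_of_nonneg_left h5 (norm_nonneg _))
        (Real.exp_pos _).le
    have h7 : ‖TB N ν ξ‖ = (‖TB N ν ξ‖ * Real.exp (m / 2) * Real.exp (-(N * (LT ν ξ).re))) *
        (Real.exp (-(m / 2)) * Real.exp (N * (LT ν ξ).re)) := by
      rw [Real.exp_neg, Real.exp_neg]
      have := Real.exp_pos (m / 2)
      have := Real.exp_pos (N * (LT ν ξ).re)
      field_simp
    have h8 : Real.exp (N * (LT ν ξ).re) ≤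
        Real.exp (N * (hh x - Real.log (Real.tan (Real.pi * x)) * (ξ.re - x) -
      Real.log (Real.cos (Real.pi * x)) * (ν.re - 1 / 2) -
      κ * ((ξ.re - x) ^ 2 + (ν.re - 1 / 2) ^ 2) + K * (ξ.im ^ 2 + ν.im ^ 2))) :=
      Real.exp_le_exp.2 (mul_le_mul_of_nonneg_left (hb ν ξ hν hξ) (by linarith))
    rw [h7]
    calc (‖TB N ν ξ‖ * Real.exp (m / 2) * Real.exp (-(N * (LT ν ξ).re))) *
        (Real.exp (-(m / 2)) * Real.exp (N * (LT ν ξ).re))
        ≤ (1 + |C|) * (Real.exp (-(m / 2)) * Real.exp (N * (LT ν ξ).re)) := by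
          refine mul_le_mul_of_nonneg_right h6 (by positivity)
      _ = ((1 + |C|) * Real.exp (-(m / 2))) * Real.exp (N * (LT ν ξ).re) := by ring
      _ ≤ C0 * _ := mul_le_mul c3 h8 (Real.exp_pos _).le (by linarith)
  · intro N hN ν ξ hν hξ
    refine ((hC N hN).2 ν ξ hν hξ).trans ?_
    exact div_le_div_of_nonneg_right c2 (Nat.cast_nonneg _)

end Pool.Agent.Q251.HT
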