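import Pool.Agent.Q99.HT.Stm5

/-!
# Project HT: job SGD (helper251): the Kashaev invariant as a state sum
-/

set_option autoImplicit false

namespace Pool.Agent.Q251.HT

open Finset
open Pool.Agent.W715.VC (rt)
open Pool.Agent.W709.QAT (Piece run)
open Pool.Agent.Q191.LB (sg)
open Pool.Agent.Q99.FAL (Pc Ty Val Sol n1 n2 cor up wd stp cls zz)
open Pool.Agent.Q99.KN (Fk Gp Rgn tw elg SG S_JG S_GG TGall S_ZG F2 S_TO Vag)
open Pool.Agent.Q99.HT

/-- the pieces with their regions -/
noncomputable def toG (N : ℕ) : (D : List Pc) → (Fin D.length → Bool × ℕ) → List (Gp N)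
  | [], _ => []
  | P :: D, f => ⟨P.ty, P.p, tw N (f 0).1 (f 0).2⟩ :: toG N D (fun k => f k.succ)

lemma len_toG (N : ℕ) : ∀ (D : List Pc) (f : Fin D.length → Bool × ℕ),
    (toG N D f).length = D.length
  | [], _ => rfl
  | P :: D, f => by
    rw [toG, List.length_cons, len_toG N D, List.length_cons]

lemma vag_toG (N : ℕ) : ∀ (D : List Pc) (f : Fin D.length → Bool × ℕ) (n : ℕ), Val D n →
    Vag (toG N D f) n
  | [], _, _, h => h
  | _ :: D, _, _, h => ⟨h.1, vag_toG N D _ _ h.2⟩

lemma ok_toG (N : ℕ) (hok : ∀ (σ : Bool) (m : ℕ), (tw N σ m).Ok) :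
    ∀ (D : List Pc) (f : Fin D.length → Bool × ℕ), ∀ P ∈ toG N D f, P.R.Ok
  | [], _, P, hP => by
    rw [toG] at hP
    exact absurd hP List.not_mem_nil
  | Q :: D, f, P, hP => by
    rw [toG, List.mem_cons] at hP
    rcases hP with rfl | hP
    · exact hok _ _
    · exact ok_toG N hok D _ P hP

lemma flat_toG (N : ℕ) : ∀ (D : List Pc) (f : Fin D.length → Bool × ℕ),
    (toG N D f).flatMap elg = lnk D f
  | [], _ => rfl
  | P :: D, f => by
    rw [toG, List.flatMap_cons, flat_toG N D, lnk]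
    obtain ⟨T, p, σ, m⟩ := P
    cases T <;> rfl

open Classical in
theorem unr (N : ℕ) (D : List Pc) : ∀ (f : Fin D.length → Bool × ℕ) (G : List ℤ),
    SG (toG N D f) G = (1 / (Real.pi : ℂ)) ^ D.length * ∑ a : Fin D.length → Fin 6 → Fin N,
      if Sol D (fun k => zz (a k)) G ((N : ℤ) - 1) then ∏ k, tp N (wf f k) (zz (a k)) else 0 := by
  induction D with
  | nil =>
    intro f G
    have : (Finset.univ : Finset (Fin ([] : List Pc).length → Fin 6 → Fin N)) =
        {fun k => k.elim0} := by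
      ext a
      simp only [Finset.mem_univ, Finset.mem_singleton, true_iff]
      funext k
      exact k.elim0
    rw [this, Finset.sum_singleton]
    simp [toG, SG, Sol]
  | cons P D ih =>
    intro f G
    have h0 : SG (toG N (P :: D) f) G = ∑ x : Fin 6 → Fin N,
        if n1 (zz x) + n2 (zz x) = (N : ℤ) - 1 ∧
          (∀ c ∈ cls P.ty P.p (cor (zz x)) G, c = (N : ℤ) - 1) then
          (tw N (f 0).1 (f 0).2).wt (zz x) *
            SG (toG N D (fun k => f k.succ)) (stp P.ty P.p (cor (zz x)) G) else 0 := by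
      rw [toG, SG]
    have h1 : ∀ x : Fin 6 → ℤ, (tw N (f 0).1 (f 0).2).wt x =
        1 / (Real.pi : ℂ) * tp N (wf f 0) x := by
      intro x
      simp only [tw, tp, wf]
      split_ifs
      · ring
      · rw [mul_zero]
    rw [h0]
    refine Eq.trans ?_ (congrArg (fun z => (1 / (Real.pi : ℂ)) ^ (P :: D).length * z)
      ((Fin.consEquiv (fun _ : Fin (D.length + 1) => Fin 6 → Fin N)).sum_comp
      (fun a : Fin (D.length + 1) → Fin 6 → Fin N =>
        if Sol (P :: D) (fun k => zz (a k)) G ((N : ℤ) - 1) then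
          ∏ k : Fin (D.length + 1), tp N (wf f k) (zz (a k)) else 0)))
    beta_reduce
    rw [Fintype.sum_prod_type, Finset.mul_sum]
    refine Finset.sum_congr rfl fun x _ => ?_
    by_cases hx : n1 (zz x) + n2 (zz x) = (N : ℤ) - 1 ∧
      (∀ c ∈ cls P.ty P.p (cor (zz x)) G, c = (N : ℤ) - 1)
    · have hpw : (1 / (Real.pi : ℂ)) ^ (P :: D).length =
          (1 / (Real.pi : ℂ)) ^ D.length * (1 / (Real.pi : ℂ)) := pow_succ _ _
      rw [if_pos hx, ih, h1, hpw]
      rw [Finset.mul_sum, Finset.mul_sum, Finset.mul_sum]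
      refine Finset.sum_congr rfl fun y _ => ?_
      have h2 : (Sol (P :: D) (fun k => zz ((Fin.consEquiv (fun _ : Fin (D.length + 1) =>
          Fin 6 → Fin N)) (x, y) k)) G ((N : ℤ) - 1)) ↔
          Sol D (fun k => zz (y k)) (stp P.ty P.p (cor (zz x)) G) ((N : ℤ) - 1) := by
        simp only [Sol]
        constructor
        · rintro ⟨_, _, h⟩
          exact h
        · intro h
          exact ⟨hx.1, hx.2, h⟩
      by_cases hs : Sol D (fun k => zz (y k)) (stp P.ty P.p (cor (zz x)) G) ((N : ℤ) - 1)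
      · rw [if_pos hs, if_pos (h2.2 hs)]
        have h3 := Fin.prod_univ_succ (fun k : Fin (D.length + 1) => tp N (wf f k)
          (zz ((Fin.consEquiv (fun _ : Fin (D.length + 1) => Fin 6 → Fin N)) (x, y) k)))
        have h4 : ∏ k : Fin (D.length + 1), tp N (wf f k)
          (zz ((Fin.consEquiv (fun _ : Fin (D.length + 1) => Fin 6 → Fin N)) (x, y) k)) =
          tp N (wf f 0) (zz x) * ∏ k, tp N (wf (fun k => f k.succ) k) (zz (y k)) := h3
        rw [h4]
        ring
      · rw [if_neg hs, if_neg (fun h => hs (h2.1 h)), mul_zero, mul_zero, mul_zero]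
    · rw [if_neg hx]
      symm
      rw [Finset.mul_sum]
      refine Finset.sum_eq_zero fun y _ => ?_
      rw [if_neg, mul_zero]
      intro h
      simp only [Sol] at h
      exact hx ⟨h.1, h.2.1⟩

theorem task_SGD : S_SGD := by
  intro hF hTO hJ hGG hTG hZG N h D f hV
  obtain ⟨θ, hθ, hr⟩ := hJ hGG hTG hZG N h (toG N D f) (ok_toG N (hTO hF N h) D f)
    (vag_toG N D f 1 hV)
  refine ⟨θ, hθ, ?_⟩
  rw [flat_toG, len_toG, unr] at hr
  have hpw : ((N : ℂ) / (Real.pi : ℂ)) ^ D.length =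
      (N : ℂ) ^ D.length * (1 / (Real.pi : ℂ)) ^ D.length := by
    rw [← mul_pow, mul_one_div]
  rw [hr, ZD, hpw]
  ring

end Pool.Agent.Q251.HT
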